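import Pool.Agent.X255.RH.Tow6
import Pool.Agent.X255.RH.Mea3
import Pool.Agent.H340R2.LW

/-!
# `e ^ z`, `e ^ (e z)`, `e ^ (e ^ z)`, `e ^ (z e ^ z)` at almost all algebraic numbers, jointly for all conjugates

The number `e ^ e` is the value at `z = 1` of the functions `e ^ (e z)`, `e ^ (e ^ z)` and `e ^ (z e ^ z)`. For 100% of the
integral polynomials of degree `g`, ordered by the maximum `T` of the absolute values of the coefficients, we prove that
the numbers `e ^ z`, `e ^ (e z)`, `e ^ (e ^ z)`, `e ^ (z e ^ z)`, `z` ALL roots of the polynomial, satisfy no relation whose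
degree, and the degree of whose coefficient field, is at most `ω (T)`, and whose coefficients are of size at most
`T ^ ω (T)`, where `ω (T) → ∞` (the coefficients may also contain arbitrary fixed complex numbers, for instance powers of
`e`), and, for integral polynomials of degree at most `k`, a measure of algebraic independence `|P| ≥ H ^ (-C)` for the
heights `H` between `T ^ (1 / k)` and `T ^ k`. More generally this holds for `e ^ z` and the numbers `exp (P_i (z, e ^ z))`,
for complex polynomials `P_i` in two variables of which no nontrivial combination with integral coefficients is of the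
form `c + k z`, `c` complex, `k` an integer.

Proof: `Pool.Agent.X255.NP` and `Pool.Agent.Y890.MV` (nonstandard versions of the Bombieri-Pila method), the algebraic
independence over `ℂ(z)` of the functions (`Pool.Agent.X255.RH.Tow6`, differential algebra), and `Pool.Agent.X255.RH`
(independence of functions of different variables; almost no integral polynomial has close roots).
-/

set_option autoImplicit false

open Polynomial Filter NumberField
open scoped Classical

namespace Pool.Agent.Results.MP_58ae59_nt.ConjugateExponentials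

/-- No nontrivial combination of the polynomials `P_i (X, Y)` with integral coefficients is of the form `c + k X`, `c`
complex, `k` an integer. (The outer variable is `Y`.) -/
def Admissible {r : ℕ} (P : Fin r → ℂ[X][X]) : Prop :=
  ∀ n : Fin r → ℤ, n ≠ 0 → ∀ (c : ℂ) (k : ℤ), ∑ i, (n i : ℂ[X][X]) * P i ≠ C (C c + (k : ℂ[X]) * X)

/-- the numbers `e ^ z` and `exp (P_i (z, e ^ z))` -/
noncomputable def value {r : ℕ} (P : Fin r → ℂ[X][X]) (z : ℂ) : Option (Fin r) → ℂ
  | none => Complex.exp z
  | some i => Complex.exp ((P i).evalEval z (Complex.exp z))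

/-- the polynomials `e X`, `Y`, `X Y` -/
noncomputable def special : Fin 3 → ℂ[X][X] := ![C (C (Complex.exp 1) * X), X, C X * X]

/-- the numbers `e ^ (e z)`, `e ^ (e ^ z)`, `e ^ (z e ^ z)`; all of them are `e ^ e` for `z = 1` -/
noncomputable def exponentials (z : ℂ) : Fin 3 → ℂ :=
  ![Complex.exp (Complex.exp 1 * z), Complex.exp (Complex.exp z), Complex.exp (z * Complex.exp z)]

/-- the polynomial `a_g X ^ g + … + a_0` -/
noncomputable def poly {g : ℕ} (a : Fin (g + 1) → ℤ) : ℂ[X] := ∑ i, C (a i : ℂ) * X ^ (i : ℕ)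

/-- the roots of the polynomial in the set `V` -/
noncomputable def rootsIn (V : Set ℂ) {g : ℕ} (a : Fin (g + 1) → ℤ) : Finset ℂ :=
  (poly a).roots.toFinset.filter fun z => z ∈ V

/-- The numbers `x q`, `q ∈ Q`, satisfy no relation of degree at most `k` in each of them with coefficients
`∑ ξ b * c b`, `b < k`, where the `c b` are integers of a number field of degree at most `k`, all of whose conjugates
are of absolute value at most `T ^ k`, except the relations all of whose coefficients vanish. -/
def Unrelated {Q : Type} [Fintype Q] [DecidableEq Q] (ξ : ℕ → ℂ) (k : ℕ) (T : ℝ) (x : Q → ℂ) : Prop :=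
  ∀ (F : Type) [Field F] [NumberField F], Module.finrank ℚ F ≤ k → ∀ (io : F →+* ℂ)
    (c : (Q → Fin (k + 1)) → Fin k → 𝓞 F), (∀ l b (φ : F →+* ℂ), ‖φ (c l b : F)‖ ≤ T ^ k) →
    ∑ l, (∑ b : Fin k, ξ b * io (c l b : F)) * ∏ q, x q ^ (l q : ℕ) = 0 → ∀ l, ∑ b : Fin k, ξ b * io (c l b : F) = 0

/-- Lower bounds for heights between `T ^ (1 / k)` and `T ^ k`: every nonzero integral polynomial `P` of total degree at
most `k` and height at most `H` satisfies `|P (x)| ≥ H ^ (-C)`. -/
def Measure {Q : Type} (k : ℕ) (C T : ℝ) (x : Q → ℂ) : Prop :=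
  ∀ H : ℝ, T ^ ((1 : ℝ) / k) ≤ H → H ≤ T ^ k → ∀ P : MvPolynomial Q ℤ, P ≠ 0 → P.totalDegree ≤ k →
    (∀ m, |((P.coeff m : ℤ) : ℝ)| ≤ H) → H ^ (-C) ≤ ‖MvPolynomial.aeval x P‖

/-- the `a` with `|a_i| ≤ T` -/
noncomputable def box (g T : ℕ) : Finset (Fin (g + 1) → ℤ) := Fintype.piFinset fun _ => Finset.Icc (-(T : ℤ)) T

/-- the numbers `e ^ z` and `exp (P_i (z, e ^ z))`, `z` all roots of `a` -/
noncomputable def numbers {g r : ℕ} (P : Fin r → ℂ[X][X]) (a : Fin (g + 1) → ℤ)
    (q : {z // z ∈ rootsIn Set.univ a} × Option (Fin r)) : ℂ :=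
  value P q.1 q.2

/-- `a` is of degree `g`, with simple roots, and the numbers are unrelated -/
def Good {g r : ℕ} (P : Fin r → ℂ[X][X]) (ξ : ℕ → ℂ) (k : ℕ) (T : ℝ) (a : Fin (g + 1) → ℤ) : Prop :=
  a (Fin.last g) ≠ 0 ∧ (poly a).Separable ∧ Unrelated ξ k T (numbers P a)

/-- `a` is of degree `g`, with simple roots, and the numbers satisfy the lower bounds -/
def GoodM {g r : ℕ} (P : Fin r → ℂ[X][X]) (k : ℕ) (C T : ℝ) (a : Fin (g + 1) → ℤ) : Prop :=
  a (Fin.last g) ≠ 0 ∧ (poly a).Separable ∧ Measure k C T (numbers P a)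

/-- `a` is of degree `g`, its roots are simple, of absolute value at most `R`, at distance at least `η` from each other,
and the roots in `V` are at distance at least `η` from the complement of `V` -/
def Position (V : Set ℂ) (R η : ℝ) {g : ℕ} (a : Fin (g + 1) → ℤ) : Prop :=
  a (Fin.last g) ≠ 0 ∧ (poly a).Separable ∧ ∀ z, (poly a).eval z = 0 → ‖z‖ ≤ R ∧
    (∀ w, (poly a).eval w = 0 → w ≠ z → η ≤ ‖z - w‖) ∧ (z ∈ V → Metric.ball z η ⊆ V)

theorem lin_e {m n : ℤ} (h : (m : ℂ) = n * Complex.exp 1) : n = 0 := by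
  by_contra hn
  have hn' : (n : ℂ) ≠ 0 := by exact_mod_cast hn
  have h1 : Complex.exp 1 = algebraMap ℚ ℂ ((m : ℚ) / n) := by
    rw [map_div₀, map_intCast, map_intCast, h]
    field_simp
  refine Pool.Agent.H340R2.LW.transcendental_exp_one_complex ?_
  rw [h1]
  exact isAlgebraic_algebraMap _

theorem special_admissible : Admissible special := by
  intro n hn c k h
  apply hn
  have h0 : ∀ i j, ((∑ i, (n i : ℂ[X][X]) * special i).coeff i).coeff j = ((C (C c + (k : ℂ[X]) * X) : ℂ[X][X]).coeff i).coeff j := by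
    intro i j
    rw [h]
  have hcast : ∀ m : ℤ, (m : ℂ[X][X]) = C (C (m : ℂ)) := by
    intro m
    simp
  have hcast1 : ∀ m : ℤ, (m : ℂ[X]) = C (m : ℂ) := by
    intro m
    simp
  simp only [Fin.sum_univ_three, special, hcast, hcast1] at h0
  have h11 := h0 1 1
  have h01 := h0 0 1
  have h10 := h0 1 0
  simp [coeff_C, coeff_X, coeff_one] at h11 h01 h10
  funext i
  fin_cases i
  · exact lin_e (m := k) (n := n 0) h01.symm
  · simpa using h10
  · have hc1 : ∀ m : ℤ, (m : ℂ[X]).coeff 1 = 0 := fun m => by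
      rw [← map_intCast (C : ℂ →+* ℂ[X]), coeff_C_ne_zero one_ne_zero]
    have hc2 : ∀ m : ℤ, (m : ℂ[X][X]).coeff 1 = 0 := fun m => by
      rw [← map_intCast (C : ℂ[X] →+* ℂ[X][X]), coeff_C_ne_zero one_ne_zero]
    simpa [hc1, hc2] using h11

theorem special_eq (z : ℂ) (i : Fin 3) : value special z (some i) = exponentials z i := by
  fin_cases i
  · change Complex.exp ((C (C (Complex.exp 1) * X) : ℂ[X][X]).evalEval z (Complex.exp z)) = _
    simp [evalEval, exponentials]
  · change Complex.exp ((X : ℂ[X][X]).evalEval z (Complex.exp z)) = _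
    simp [evalEval, exponentials]
  · change Complex.exp ((C X * X : ℂ[X][X]).evalEval z (Complex.exp z)) = Complex.exp (z * Complex.exp z)
    rw [mul_comm z]
    simp [evalEval]

/-- **Theorem.** Let `g ≥ 1` and let `P` be an admissible family of complex polynomials in two variables.
(1) For every sequence `ξ` there is a monotone `ω`, `ω(T) → ∞`, such that the proportion of the polynomials with
`|a_i| ≤ T` which are not `Good` with `k = ω(T)` is at most `1 / ω(T)`.
(2) For every `k ≥ 1` there are `C` and `T₀` such that for `T ≥ T₀` the proportion of the polynomials with `|a_i| ≤ T`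
which are not `GoodM` is at most `1 / k`.
(3) For fixed `k ≥ 1`, `R`, `η > 0` and `ε > 0` there are `B`, `C` such that the lower bounds `Measure k B T` hold for all
but `C T ^ (g + ε)` of the polynomials with `|a_i| ≤ T` whose roots are in the compact position `Position Set.univ R η`
(there are about `(2 T) ^ (g + 1)` polynomials).
(4) The polynomials `special` are admissible, and their values are `e ^ (e z)`, `e ^ (e ^ z)`, `e ^ (z e ^ z)`. -/
theorem result (g r : ℕ) (hg : 0 < g) (P : Fin r → ℂ[X][X]) (hP : Admissible P) :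
    (∀ ξ : ℕ → ℂ, ∃ ω : ℕ → ℕ, Tendsto ω atTop atTop ∧ Monotone ω ∧ ∀ T,
      ω T * ((box g T).filter fun a => ¬ Good P ξ (ω T) T a).card ≤ (box g T).card) ∧
    (∀ k : ℕ, 1 ≤ k → ∃ (C : ℝ) (T₀ : ℕ), ∀ T : ℕ, T₀ ≤ T →
      (k : ℝ) * ((box g T).filter fun a => ¬ GoodM P k C T a).card ≤ (box g T).card) ∧
    (∀ (k : ℕ) (R η ε : ℝ), 1 ≤ k → 0 < η → 0 < ε → ∃ B C : ℝ, ∀ T : ℕ, 1 ≤ T →
      (((box g T).filter fun a => Position Set.univ R η a ∧ ¬ Measure k B T (numbers P a)).card : ℝ) ≤
        C * (T : ℝ) ^ ((g : ℝ) + ε)) ∧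
    Admissible special ∧ ∀ z i, value special z (some i) = exponentials z i := by
  have hop : IsOpen (Set.univ : Set ℂ) := isOpen_univ
  have hpre : IsPreconnected (Set.univ : Set ℂ) := isPreconnected_univ
  have htame : Pool.Agent.X255.RH.Tame Set.univ Set.univ := Pool.Agent.X255.RH.tame_univ
  have hE : AnalyticOnNhd ℂ Complex.exp Set.univ := fun z _ => analyticAt_cexp
  have hval : (fun (w : Option (Fin r)) z => value P z w) =
      fun (o : Option (Fin r)) => o.elim Complex.exp fun j x => Complex.exp ((P j).evalEval x (Complex.exp x)) := by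
    funext w z
    rcases w with _ | i <;> rfl
  have han : ∀ w : Option (Fin r), AnalyticOnNhd ℂ (fun z => value P z w) Set.univ := by
    rintro (_ | i)
    · exact hE
    · exact fun z hz => (Pool.Agent.X255.RH.Tow.evalEval_an hE (P i) z hz).cexp
  have hind : Pool.Agent.X255.RH.Indep Set.univ (fun (w : Option (Fin r)) z => value P z w) := by
    rw [hval]
    refine Pool.Agent.X255.RH.Tow.pexp_indep hop Set.univ_nonempty P fun n hn c k h => hP n hn c k ?_
    rw [show (k : ℂ[X]) = C (k : ℂ) by simp, ← h]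
    exact Finset.sum_congr rfl fun i _ => by rw [show (n i : ℂ[X][X]) = C (C (n i : ℂ)) by simp]
  have h2 := fun (k : ℕ) (hk : 1 ≤ k) => Pool.Agent.X255.RH.mea_all (g := g) hg hpre hop htame han hind k hk
  refine ⟨fun ξ => ?_, fun k hk => ?_, fun k R η ε hk hη hε => ?_, special_admissible, special_eq⟩
  · exact Pool.Agent.X255.RH.main_all (g := g) hg hpre hop (fun _ => Set.univ) (fun _ => htame) han hind ξ
  · obtain ⟨B, T₀, h⟩ := h2 k hk
    refine ⟨k * max B 0, max 1 T₀, fun T hT => ?_⟩
    have hT1 : (1 : ℝ) ≤ T := by exact_mod_cast (le_max_left _ _).trans hT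
    have h3 := h T ((le_max_right _ _).trans hT) (fun b => if b = 0 then 1 else 0)
    refine le_trans ?_ h3
    refine mul_le_mul_of_nonneg_left ?_ (Nat.cast_nonneg _)
    refine Nat.cast_le.2 (Finset.card_le_card fun a ha => ?_)
    rw [Finset.mem_filter] at ha ⊢
    refine ⟨ha.1, fun hgood => ha.2 ⟨hgood.1, hgood.2.1, ?_⟩⟩
    intro H hH1 hH2 P hP hd hc
    exact hgood.2.2.height hk hT1 hH1 hH2 P hP hd hc
  · obtain ⟨B, C, h⟩ := Pool.Agent.X255.RH.mea_eps (g := g) hg hpre hop han hind Set.univ k R η ε hη hε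
    refine ⟨k * max B 0, C, fun T hT => ?_⟩
    have hT1 : (1 : ℝ) ≤ T := by exact_mod_cast hT
    refine le_trans ?_ (h T hT (fun b => if b = 0 then 1 else 0))
    refine Nat.cast_le.2 (Finset.card_le_card fun a ha => ?_)
    rw [Finset.mem_filter] at ha ⊢
    refine ⟨ha.1, ha.2.1, fun hm => ha.2.2 ?_⟩
    intro H hH1 hH2 P hP hd hc
    exact hm.height hk hT1 hH1 hH2 P hP hd hc

end Pool.Agent.Results.MP_58ae59_nt.ConjugateExponentials
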