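import Mathlib
import Pool.Agent.X142.RF.Sparse

/-!
# Good approximations of `e ^ e` (or any real number) by quotients of integer polynomials in `e`
-/

set_option autoImplicit false

namespace Pool.Agent.Results.MP_58ae59_nt.NearRationalFunctions

open Polynomial

/-- The height of the pair `(A, B)`: the largest absolute value of a coefficient of `A` or `B`. -/
noncomputable def height (p : ℤ[X] × ℤ[X]) : ℕ :=
  max (p.1.support.sup fun i => (p.1.coeff i).natAbs) (p.2.support.sup fun i => (p.2.coeff i).natAbs)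

/-- The pairs `(A, B)` of integer polynomials of degree at most `m` without common divisor in `ℤ[x]`, `B` with positive
leading coefficient, with `|A(e) + B(e) t| ≤ height ^ (-w)`. -/
def Near (t : ℝ) (m : ℕ) (w : ℝ) : Set (ℤ[X] × ℤ[X]) :=
  {p | IsRelPrime p.1 p.2 ∧ 0 < p.2.leadingCoeff ∧ p.1.natDegree ≤ m ∧ p.2.natDegree ≤ m ∧
    |aeval (Real.exp 1) p.1 + aeval (Real.exp 1) p.2 * t| ≤ (height p : ℝ) ^ (-w)}

/-- For `m ≥ 0` and `1 < ρ < (w - 2 m) / (2 m + 1)` there is `H₀` such that for every real `t` (for instance `e ^ e`)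
and every `X ≥ 3` at most `log log X / log ρ + 1` pairs of height between `H₀` and `X` are near relations. -/
theorem result (m : ℕ) (w ρ : ℝ) (hρ : 1 < ρ) (hw : ρ < (w - 2 * m) / (2 * m + 1)) :
    ∃ H₀ : ℝ, ∀ t X : ℝ, 3 ≤ X →
      {p ∈ Near t m w | H₀ ≤ height p ∧ (height p : ℝ) ≤ X}.Finite ∧
      ({p ∈ Near t m w | H₀ ≤ height p ∧ (height p : ℝ) ≤ X}.ncard : ℝ) ≤
        Real.log (Real.log X) / Real.log ρ + 1 := by
  have hm : (0 : ℝ) ≤ m := Nat.cast_nonneg _
  rw [lt_div_iff₀ (by positivity)] at hw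
  obtain ⟨η, hη⟩ : ∃ η : ℝ, η = (w - 2 * m - ρ * (2 * m + 1)) / (2 * (ρ + 1)) := ⟨_, rfl⟩
  have hη0 : 0 < η := by
    rw [hη]
    apply div_pos <;> linarith
  have hηe : η * (2 * (ρ + 1)) = w - 2 * m - ρ * (2 * m + 1) := by
    rw [hη]
    field_simp
  have hw0 : 0 ≤ w := by nlinarith
  obtain ⟨c, hc, hmeas⟩ := Pool.Agent.W472.AC.e_measP (2 * m) η hη0
  obtain ⟨H₀, -, h⟩ := Pool.Agent.X142.RF.sparse (Real.exp 1) m (((2 * m : ℕ) : ℝ) + η) c
    (by positivity) hc hmeas w ρ hw0 hρ (by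
      rw [lt_div_iff₀ (by positivity)]
      push_cast
      nlinarith)
  exact ⟨H₀, fun t X hX => h t X hX⟩

end Pool.Agent.Results.MP_58ae59_nt.NearRationalFunctions
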