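import Mathlib
import Pool.Agent.X142.RF.Basic

/-!
# A zero-one law for relations `t = A(e) / B(e)`, for instance with `t = e ^ e`

For every real `t` and every `m ≥ 0`: either `t` is a quotient of two integer polynomials in `e` of degree at
most `m`, or the uniform exponent of approximation to `0` by the forms `A(e) + B(e) t` is at most `4 m + 1`.
-/

set_option autoImplicit false

namespace Pool.Agent.Results.MP_58ae59_nt.RationalFunctionsOfE

open Polynomial

/-- For all large real `H` there are integer polynomials `A`, `B`, not both zero, of degree at most `m` and with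
coefficients of absolute value at most `H`, such that `|A(e) + B(e) t| ≤ H ^ (-τ)`. -/
def Uniform (m : ℕ) (t τ : ℝ) : Prop :=
  ∃ H₀ : ℝ, ∀ H : ℝ, H₀ ≤ H → ∃ A B : ℤ[X], (A ≠ 0 ∨ B ≠ 0) ∧ A.natDegree ≤ m ∧ B.natDegree ≤ m ∧
    (∀ i, |(A.coeff i : ℝ)| ≤ H) ∧ (∀ i, |(B.coeff i : ℝ)| ≤ H) ∧
    |aeval (Real.exp 1) A + aeval (Real.exp 1) B * t| ≤ H ^ (-τ)

/-- For every real `t` (for instance `t = e ^ e`), every `m` and every `τ > 4 m + 1` the following are equivalent:
`B(e) t = -A(e)` for some integer polynomials `A`, `B ≠ 0` of degree at most `m`; the uniform exponent is at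
least `τ`; the uniform exponent is infinite. -/
theorem result (m : ℕ) (t τ : ℝ) (hτ : 4 * (m : ℝ) + 1 < τ) :
    [∃ A B : ℤ[X], A.natDegree ≤ m ∧ B.natDegree ≤ m ∧ B ≠ 0 ∧
        aeval (Real.exp 1) A + aeval (Real.exp 1) B * t = 0,
      Uniform m t τ,
      ∀ σ : ℝ, Uniform m t σ].TFAE := by
  tfae_have 1 → 3 := by
    rintro ⟨A, B, hA, hB, hB0, h⟩ σ
    obtain ⟨S, hS⟩ : ∃ S : ℝ, S = ∑ i ∈ Finset.range (m + 1), (|(A.coeff i : ℝ)| + |(B.coeff i : ℝ)|) :=
      ⟨_, rfl⟩
    have hS0 : 0 ≤ S := by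
      rw [hS]
      exact Finset.sum_nonneg fun i _ => by positivity
    have hterm : ∀ i, |(A.coeff i : ℝ)| ≤ S ∧ |(B.coeff i : ℝ)| ≤ S := by
      intro i
      by_cases hi : i < m + 1
      · have h1 := Finset.single_le_sum (f := fun i => |(A.coeff i : ℝ)| + |(B.coeff i : ℝ)|)
          (fun i _ => by positivity) (Finset.mem_range.2 hi)
        rw [← hS] at h1
        have h2 := abs_nonneg (A.coeff i : ℝ)
        have h3 := abs_nonneg (B.coeff i : ℝ)
        constructor <;> linarith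
      · rw [coeff_eq_zero_of_natDegree_lt (by omega), coeff_eq_zero_of_natDegree_lt (by omega)]
        simp only [Int.cast_zero, abs_zero]
        exact ⟨hS0, hS0⟩
    refine ⟨max S 0, fun H hH => ⟨A, B, Or.inr hB0, hA, hB, fun i => ?_, fun i => ?_, ?_⟩⟩
    · exact (hterm i).1.trans ((le_max_left _ _).trans hH)
    · exact (hterm i).2.trans ((le_max_left _ _).trans hH)
    · rw [h, abs_zero]
      exact Real.rpow_nonneg ((le_max_right _ _).trans hH) _
  tfae_have 3 → 2 := fun h => h τ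
  tfae_have 2 → 1 := by
    intro h
    obtain ⟨η, hη⟩ : ∃ η : ℝ, η = (τ - (4 * m + 1)) / 4 := ⟨_, rfl⟩
    have hη0 : 0 < η := by rw [hη]; linarith
    obtain ⟨c, hc, hmeas⟩ := Pool.Agent.W472.AC.e_measP (2 * m) η hη0
    have hm : (0 : ℝ) ≤ m := Nat.cast_nonneg _
    obtain ⟨A, B, h1, h2, h3, h4⟩ := Pool.Agent.X142.RF.zero_one (Real.exp 1) m
      (((2 * m : ℕ) : ℝ) + η) c (by positivity) hc hmeas t τ (by push_cast; rw [hη]; linarith) h
    exact ⟨A, B, h1, h2, h3, h4⟩
  tfae_finish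

end Pool.Agent.Results.MP_58ae59_nt.RationalFunctionsOfE
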