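import Pool.Agent.Results.MP_58ae59_nt.ConjugateExponentials
import Pool.Agent.X174.TupIneq
import Pool.Agent.X39.Near.MasterI

/-!
# `e ^ z`, `e ^ (e z)`, `e ^ (e ^ z)`, `e ^ (z e ^ z)` at ALL simultaneous approximations of `N ≥ 1` numbers

The number `e ^ e` is the value at `z = 1` of the functions `e ^ (e z)`, `e ^ (e ^ z)` and `e ^ (z e ^ z)`. We study these
functions, `e ^ z`, and more generally `e ^ z` and `exp (P_i (z, e ^ z))` for complex polynomials `P_i` in two variables of
which no nontrivial combination with integral coefficients is of the form `c + k z`, `c` complex, `k` an integer, at `N`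
algebraic numbers `z_1, …, z_N` at a time (the polynomials may be different for the `N` points).

For every `ω > 0` and `m` there is ONE set `E ⊂ ℂ^N` of Hausdorff dimension at most `2 m (N - 1) / ω`, in particular of
dimension ZERO for `N = 1`, such that for all `x` outside `E`, all number fields `F ⊂ ℂ` of degree at most `m` and all
`k ≥ 1` there are `C` and `T₁` such that for all `T ≥ T₁` and ALL simultaneous approximations `z ∈ F^N` of `x`, of height at
most `T`, with `|z_j - x_j| ≤ T ^ (-ω)` for all `j`, these numbers at the `N` points together satisfy `|P| ≥ H ^ (-C)` for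
all nonzero integral polynomials `P` of degree at most `k` in each variable and height at most `H`,
`T ^ (1 / k) ≤ H ≤ T ^ k`. More generally there is no relation with coefficients which are polynomials of bounded degree in
given rational functions of the `z_j` and in given complex numbers `ξ_i` (for instance powers of `e`), with coefficients in
`F` of height at most `T ^ A`. For `ω > 2 m (N - 1) / N` almost all real `x` are outside `E`.

So for every real `x` outside a set of dimension zero (that `x = 1` is outside is not proved) the numbers `e ^ (e z)`,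
`e ^ (e ^ z)`, `e ^ (z e ^ z)` are not rational functions of bounded complexity of `e ^ z`, at ALL algebraic numbers `z` of
degree at most `m` near `x`. The new feature compared with `ConjugateExponentials` (100% of the algebraic numbers) is that
there are no exceptional `z` near `x`. The algebraic independence of the functions is from `Pool.Agent.X255.RH.Tow6`.
-/

set_option autoImplicit false

open MeasureTheory NumberField
open scoped Polynomial

namespace Pool.Agent.Results.MP_58ae59_nt.SimultaneousApproximations

open Pool.Agent.X39.Near (Size)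
open Pool.Agent.X174.NearTup (DependentT coefAtT InequalityT)
open ConjugateExponentials (Admissible value special exponentials special_admissible special_eq)

/-- the functions are algebraically independent near every point -/
theorem locInd {r : ℕ} {P : Fin r → ℂ[X][X]} (hP : Admissible P) (t : ℂ) :
    Pool.Agent.Y124.LocInd (fun (w : Option (Fin r)) z => value P z w) t := by
  have hE : AnalyticOnNhd ℂ Complex.exp Set.univ := fun z _ => analyticAt_cexp
  have hval : (fun (w : Option (Fin r)) z => value P z w) =
      fun (o : Option (Fin r)) => o.elim Complex.exp fun j x => Complex.exp ((P j).evalEval x (Complex.exp x)) := by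
    funext w z
    rcases w with _ | i <;> rfl
  have hind : Pool.Agent.X255.RH.Indep Set.univ (fun (w : Option (Fin r)) z => value P z w) := by
    rw [hval]
    refine Pool.Agent.X255.RH.Tow.pexp_indep isOpen_univ Set.univ_nonempty P fun n hn c k h => hP n hn c k ?_
    rw [show (k : ℂ[X]) = Polynomial.C (k : ℂ) by simp, ← h]
    exact Finset.sum_congr rfl fun i _ => by
      rw [show (n i : ℂ[X][X]) = Polynomial.C (Polynomial.C (n i : ℂ)) by simp]
  have han : ∀ w : Option (Fin r), ∀ t ∈ (Set.univ : Set ℂ), AnalyticAt ℂ (fun z => value P z w) t := by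
    rintro (_ | i) t -
    · exact analyticAt_cexp
    · exact (Pool.Agent.X255.RH.Tow.evalEval_an hE (P i) t (Set.mem_univ t)).cexp
  exact Pool.Agent.X39.Near.locInd_of isPreconnected_univ _ han (Pool.Agent.X39.Near.aindep_of_indep hind) t
    (Set.mem_univ t)

/-- **Theorem.** Let `N ≥ 1` and `m` be natural numbers, for each `j < N` let `P_j1, …, P_jr` be an admissible family of
complex polynomials in two variables, `V_j ⊂ ℂ` an open set, `u_jk` and `w_j` complex polynomials, `w_j` without zeros on
`V_j`; let `ξ_1, …, ξ_g` be complex numbers and `ω > 0`. There is a set `E ⊂ ℂ^N` of Hausdorff dimension at most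
`2 m (N - 1) / ω`, which contains almost no real point if `2 m (N - 1) < N ω`, such that for all `x` outside `E` with
`x_j ∈ V_j` and all number fields `F` of degree at most `m` with an embedding `ι` in `ℂ`:
(1) for all `k ≥ 1` there are `C`, `T₁` such that for all `T ≥ T₁` and all `z ∈ F^N`, quotients of integers with conjugates at
most `T`, with `|ι z_j - x_j| ≤ T ^ (-ω)` for all `j`, the inequality `InequalityT` holds for the numbers `e ^ (z_j)`,
`exp (P_ji (z_j, e ^ (z_j)))`, `j < N`;
(2) for all `d`, `A` there are `B`, `T₁` such that for all `T ≥ T₁` and all such `z` these numbers are not dependent.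
(3) The three polynomials `special` are admissible, and their values are `e ^ (e z)`, `e ^ (e ^ z)`, `e ^ (z e ^ z)`. -/
theorem result :
    (∀ (N m q r g : ℕ), 1 ≤ N → ∀ P : Fin N → Fin r → ℂ[X][X], (∀ j, Admissible (P j)) →
      ∀ V : Fin N → Set ℂ, (∀ j, IsOpen (V j)) →
      ∀ (u : Fin N → Fin q → ℂ[X]) (w : Fin N → ℂ[X]), (∀ j, ∀ t ∈ V j, (w j).eval t ≠ 0) →
      ∀ (ξ : Fin g → ℂ) (ω : ℝ), 0 < ω →
      ∃ E : Set (Fin N → ℂ), dimH E ≤ ENNReal.ofReal (2 * m * ((N : ℝ) - 1) / ω) ∧
        (2 * m * ((N : ℝ) - 1) < N * ω → ∀ᵐ x : Fin N → ℝ, (fun j => (x j : ℂ)) ∉ E) ∧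
        ∀ x : Fin N → ℂ, (∀ j, x j ∈ V j) → x ∉ E → ∀ (F : Type) [Field F] [NumberField F],
          Module.finrank ℚ F ≤ m → ∀ (ι : F →+* ℂ),
          (∀ k : ℕ, 1 ≤ k → ∃ C T₁ : ℝ, ∀ T : ℝ, T₁ ≤ T → ∀ z : Fin N → F, (∀ j, Size F T (z j)) →
            (∀ j, ‖ι (z j) - x j‖ ≤ T ^ (-ω)) →
            InequalityT k C T (fun y : Fin N × Option (Fin r) => value (P y.1) (ι (z y.1)) y.2)) ∧
          ∀ d A : ℕ, ∃ B T₁ : ℝ, ∀ T : ℝ, T₁ ≤ T → ∀ z : Fin N → F, (∀ j, Size F T (z j)) →
            (∀ j, ‖ι (z j) - x j‖ ≤ T ^ (-ω)) →
            ¬ DependentT (fun j (o : Option (Fin r)) t => value (P j) t o) u w ξ F ι d A B T z) ∧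
    Admissible special ∧ ∀ z i, value special z (some i) = exponentials z i := by
  refine ⟨fun N m q r g hN P hP V hV u w hw ξ ω hω => ?_, special_admissible, special_eq⟩
  have hE : AnalyticOnNhd ℂ Complex.exp Set.univ := fun z _ => analyticAt_cexp
  obtain ⟨E, h1, h2, h3⟩ := Pool.Agent.X174.NearTup.masterTup hN m V hV
    (fun j (o : Option (Fin r)) t => value (P j) t o) (fun j o t _ => by
      rcases o with _ | i
      · exact analyticAt_cexp
      · exact (Pool.Agent.X255.RH.Tow.evalEval_an hE (P j i) t (Set.mem_univ t)).cexp)
    (fun j t _ => locInd (hP j) t) u w hw ξ hω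
  exact ⟨E, h1, h2, fun x hx hxE F _ _ hF ι => ⟨fun k hk =>
    Pool.Agent.X174.NearTup.ineq_of (h3 x hx hxE F hF ι) k hk, h3 x hx hxE F hF ι⟩⟩

end Pool.Agent.Results.MP_58ae59_nt.SimultaneousApproximations
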